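import Pool.Agent.Y980.DV.Cnt2
import Pool.Agent.Y980.DV.Up3

set_option autoImplicit false

/-!
# The largest subset of `[1, n]` with no element a multiple of two others: between `1553/2160` and `4663/6480`
-/

namespace Pool.Agent.Results.MP_773b84_nt.NarrowerRange

open Finset

/-- No element of `A` is a multiple of two other elements of `A`. -/
def Admissible (A : Finset ℕ) : Prop :=
  ¬ ∃ a ∈ A, ∃ b ∈ A, ∃ c ∈ A, a ≠ b ∧ a ≠ c ∧ b ≠ c ∧ b ∣ a ∧ c ∣ a

open Classical in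
/-- `g n` is the largest cardinality of an admissible subset of `[1, n]`. -/
noncomputable def g (n : ℕ) : ℕ :=
  ((Icc 1 n).powerset.filter (fun A => Admissible A)).sup Finset.card

lemma g_eq (n : ℕ) : g n = BeyondTwoThirds.g n := rfl

lemma adm_S (m : ℕ) : BeyondTwoThirds.Admissible (Pool.Agent.Y980.DV.B.S m) := by
  rintro ⟨a, ha, b, hb, c, hc, hab, hac, hbc, h1, h2⟩
  rw [Pool.Agent.Y980.DV.B.mem_S] at ha hb hc
  have hba : b < a := lt_of_le_of_ne (Nat.le_of_dvd (by omega) h1) (Ne.symm hab)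
  have hca : c < a := lt_of_le_of_ne (Nat.le_of_dvd (by omega) h2) (Ne.symm hac)
  rcases lt_or_gt_of_ne hbc with h | h
  · exact Pool.Agent.Y980.DV.B.no_two (by omega) (by omega) ha.2 hc.2 hb.2 h hca h2 h1
  · exact Pool.Agent.Y980.DV.B.no_two (by omega) (by omega) ha.2 hb.2 hc.2 h hba h1 h2

lemma lower (n : ℕ) : 1553 * n ≤ 2160 * g n + 1440 * Nat.log 2 n + 6708847 := by
  obtain ⟨t, ht⟩ : ∃ t, t = n / 4320 := ⟨_, rfl⟩
  have h1 : (Pool.Agent.Y980.DV.B.S (6 * t)).card ≤ g n := by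
    rw [g_eq]
    refine (BeyondTwoThirds.le_g (n := 4320 * t) ?_ (adm_S _)).trans
      (BeyondTwoThirds.g_mono (by omega))
    intro x hx
    rw [Pool.Agent.Y980.DV.B.mem_S] at hx
    rw [mem_Icc]
    omega
  have h2 := Pool.Agent.Y980.DV.B.card_S t
  have h3 := (Pool.Agent.Y980.DV.NO_bd (4320 * t)).1
  have h4 := (Pool.Agent.Y980.DV.NO_bd (360 * t)).2
  have h5 : Nat.log 2 (4320 * t) ≤ Nat.log 2 n := Nat.log_mono_right (by omega)
  have h6 : Nat.log 2 (360 * t) ≤ Nat.log 2 n := Nat.log_mono_right (by omega)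
  omega

/-- For every `n`, `(1553/2160) n - (2/3) log₂ n - 3106 ≤ g(n) ≤ (4663/6480) n + (2/3) log₂ n + 10`
(`Nat.log 2 n` is the integer part of the logarithm to the base two). Here `1553/2160 = 4659/6480`. -/
theorem result : ∀ n : ℕ,
    (1553 / 2160 : ℝ) * n - 2 / 3 * (Nat.log 2 n : ℝ) - 3106 ≤ (g n : ℝ) ∧
      (g n : ℝ) ≤ (4663 / 6480 : ℝ) * n + 2 / 3 * (Nat.log 2 n : ℝ) + 10 := by
  intro n
  have h1 : (1553 * n : ℝ) ≤ 2160 * g n + 1440 * Nat.log 2 n + 6708847 := by exact_mod_cast lower n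
  have h2 : 6480 * g n ≤ 4663 * n + 4320 * Nat.log 2 n + 59640 := by
    rw [g_eq]
    have h3 : BeyondTwoThirds.g n ≤ (4663 * n + 4320 * Nat.log 2 n + 59640) / 6480 := by
      refine BeyondTwoThirds.g_le fun A hA hadm => ?_
      have h4 := Pool.Agent.Y980.DV.card_bound3 hA hadm
      have h5 := Pool.Agent.Y980.DV.card_D n
      have h6 := Pool.Agent.Y980.DV.card_E n
      omega
    omega
  have h3 : (6480 * g n : ℝ) ≤ 4663 * n + 4320 * Nat.log 2 n + 59640 := by exact_mod_cast h2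
  constructor <;> linarith

end Pool.Agent.Results.MP_773b84_nt.NarrowerRange
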